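import Mathlib

set_option autoImplicit false

/-!
Entropy vectors of four random variables: definitions.
-/

namespace Pool.Agent.Helper75.EntS

open Finset

/-- The entropy of the variables with index in `S`, exactly as in the frozen statement. -/
noncomputable def Hf {k N : ℕ} (p : Fin N → ℝ) (X : Fin k → Fin N → Fin N) (S : Finset (Fin k)) : ℝ :=
  -∑ ω, p ω * Real.log (∑ ω', if (∀ i ∈ S, X i ω' = X i ω) then p ω' else 0)

/-- The linear inequality with coefficients `c` holds for all `k`-tuples of random variables. -/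
def Valid {k : ℕ} (c : Finset (Fin k) → ℝ) : Prop :=
  ∀ (N : ℕ) (p : Fin N → ℝ) (X : Fin k → Fin N → Fin N), (∀ ω, 0 ≤ p ω) → ∑ ω, p ω = 1 →
    0 ≤ ∑ S : Finset (Fin k), c S * Hf p X S

/-- The coefficient vector of `H(S)`. -/
def e (S T : Finset (Fin 4)) : ℝ := if T = S then 1 else 0

/-- The coefficient vector of `I(A; B | C)`. -/
noncomputable def mi (A B C T : Finset (Fin 4)) : ℝ :=
  e (A ∪ C) T + e (B ∪ C) T - e (A ∪ B ∪ C) T - e C T

/-- The coefficient vector of `I(b; cd | a)`; the variables are `a = 0, b = 1, c = 2, d = 3`. -/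
noncomputable def vB (T : Finset (Fin 4)) : ℝ := mi {1} {2, 3} {0} T

/-- The coefficient vector of `I(a; b)`. -/
noncomputable def vI (T : Finset (Fin 4)) : ℝ := mi {0} {1} ∅ T

/-- The coefficient vector of
`I(a;b|c) + I(a;b|d) + I(c;d) + I(a;c|b) + I(a;d|b) + I(c;d|a)`. -/
noncomputable def vH (T : Finset (Fin 4)) : ℝ :=
  mi {0} {1} {2} T + mi {0} {1} {3} T + mi {2} {3} ∅ T + mi {0} {2} {1} T + mi {0} {3} {1} T +
    mi {2} {3} {0} T

/-- The value of `I(A; B | C)`. -/
def I (h : Finset (Fin 4) → ℝ) (A B C : Finset (Fin 4)) : ℝ :=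
  h (A ∪ C) + h (B ∪ C) - h (A ∪ B ∪ C) - h C

theorem sum_e (h : Finset (Fin 4) → ℝ) (S : Finset (Fin 4)) : ∑ T, e S T * h T = h S := by
  unfold e
  simp [Finset.sum_ite_eq']

theorem sum_mi (h : Finset (Fin 4) → ℝ) (A B C : Finset (Fin 4)) :
    ∑ T, mi A B C T * h T = I h A B C := by
  unfold mi I
  rw [← sum_e h (A ∪ C), ← sum_e h (B ∪ C), ← sum_e h (A ∪ B ∪ C), ← sum_e h C,
    ← sum_add_distrib, ← sum_sub_distrib, ← sum_sub_distrib]
  apply sum_congr rfl
  intro T _
  ring

/-- The value of the inequality `I(a;b) ≤ t B + x H`. -/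
theorem sum_comb (h : Finset (Fin 4) → ℝ) (t x : ℝ) :
    ∑ T, (-vI T + t * vB T + x * vH T) * h T =
      -I h {0} {1} ∅ + t * I h {1} {2, 3} {0} + x * (I h {0} {1} {2} + I h {0} {1} {3} +
        I h {2} {3} ∅ + I h {0} {2} {1} + I h {0} {3} {1} + I h {2} {3} {0}) := by
  simp only [← sum_mi h]
  rw [mul_sum, ← sum_add_distrib, ← sum_add_distrib, ← sum_add_distrib, ← sum_add_distrib,
    ← sum_add_distrib, mul_sum, ← sum_neg_distrib, ← sum_add_distrib, ← sum_add_distrib]
  apply sum_congr rfl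
  intro T _
  unfold vI vB vH
  ring

end Pool.Agent.Helper75.EntS
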