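import Mathlib
import Pool.Agent.Helper75.EntDefs

set_option autoImplicit false

/-!
Entropies of two rare independent bits `c, d` with `a = c ∧ d` and `b = c ∨ d`.
-/

namespace Pool.Agent.Helper75.EntS

open Finset Filter

/-- The four outcomes `(c, d) = (0,0), (1,0), (0,1), (1,1)`. -/
noncomputable def rp (x : ℝ) : Fin 4 → ℝ := ![(1 - x) * (1 - x), x * (1 - x), x * (1 - x), x * x]

/-- The variables. -/
def rX : Fin 4 → Fin 4 → Fin 4 := ![![0, 0, 0, 1], ![0, 1, 1, 1], ![0, 1, 0, 1], ![0, 0, 1, 1]]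

theorem rp_sum (x : ℝ) : ∑ ω, rp x ω = 1 := by
  rw [Fin.sum_univ_four]
  simp only [rp, Matrix.cons_val]
  ring

theorem rp_nonneg {x : ℝ} (h0 : 0 ≤ x) (h1 : x ≤ 1) (ω : Fin 4) : 0 ≤ rp x ω := by
  have h2 : 0 ≤ 1 - x := by linarith
  fin_cases ω <;> simp only [rp, Matrix.cons_val, Fin.mk_zero, Fin.mk_one, Fin.reduceFinMk] <;>
    positivity

theorem H_empty (x : ℝ) : Hf (rp x) rX ∅ = 0 := by
  unfold Hf
  simp only [Finset.notMem_empty, false_implies, implies_true, if_true, rp_sum, Real.log_one,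
    mul_zero, sum_const_zero, neg_zero]

theorem H_a (x : ℝ) : Hf (rp x) rX {0} =
    -((1 - x * x) * Real.log (1 - x * x) + x * x * Real.log (x * x)) := by
  unfold Hf
  simp only [mem_singleton, forall_eq, Fin.sum_univ_four, rp, rX, Matrix.cons_val]
  norm_num
  have e1 : (1 - x) * (1 - x) + x * (1 - x) + x * (1 - x) = 1 - x * x := by ring
  rw [e1]
  ring


theorem H_b (x : ℝ) : Hf (rp x) rX {1} =
    -((1 - x) * (1 - x) * Real.log ((1 - x) * (1 - x)) + x * (2 - x) * Real.log (x * (2 - x))) := by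
  unfold Hf
  simp only [mem_singleton, forall_eq, Fin.sum_univ_four, rp, rX, Matrix.cons_val]
  norm_num
  have e0 : x * (1 - x) + x * (1 - x) + x * x = x * (2 - x) := by ring
  rw [e0]
  ring

theorem H_c (x : ℝ) : Hf (rp x) rX {2} =
    -((1 - x) * Real.log (1 - x) + x * Real.log x) := by
  unfold Hf
  simp only [mem_singleton, forall_eq, Fin.sum_univ_four, rp, rX, Matrix.cons_val]
  norm_num
  have e0 : (1 - x) * (1 - x) + x * (1 - x) = 1 - x := by ring
  have e1 : x * (1 - x) + x * x = x := by ring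
  rw [e0, e1]
  ring

theorem H_d (x : ℝ) : Hf (rp x) rX {3} =
    -((1 - x) * Real.log (1 - x) + x * Real.log x) := by
  unfold Hf
  simp only [mem_singleton, forall_eq, Fin.sum_univ_four, rp, rX, Matrix.cons_val]
  norm_num
  have e0 : (1 - x) * (1 - x) + x * (1 - x) = 1 - x := by ring
  have e1 : x * (1 - x) + x * x = x := by ring
  rw [e0, e1]
  ring

theorem H_ab (x : ℝ) : Hf (rp x) rX {0, 1} =
    -((1 - x) * (1 - x) * Real.log ((1 - x) * (1 - x)) + 2 * (x * (1 - x)) * Real.log (2 * (x * (1 - x))) + x * x * Real.log (x * x)) := by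
  unfold Hf
  simp only [mem_singleton, mem_insert, forall_eq, forall_eq_or_imp, Fin.sum_univ_four, rp, rX,
    Matrix.cons_val]
  norm_num
  have e0 : x * (1 - x) + x * (1 - x) = 2 * (x * (1 - x)) := by ring
  rw [e0]
  ring

theorem H_ac (x : ℝ) : Hf (rp x) rX {0, 2} =
    -((1 - x) * Real.log (1 - x) + x * (1 - x) * Real.log (x * (1 - x)) + x * x * Real.log (x * x)) := by
  unfold Hf
  simp only [mem_singleton, mem_insert, forall_eq, forall_eq_or_imp, Fin.sum_univ_four, rp, rX,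
    Matrix.cons_val]
  norm_num
  have e0 : (1 - x) * (1 - x) + x * (1 - x) = 1 - x := by ring
  rw [e0]
  ring

theorem H_ad (x : ℝ) : Hf (rp x) rX {0, 3} =
    -((1 - x) * Real.log (1 - x) + x * (1 - x) * Real.log (x * (1 - x)) + x * x * Real.log (x * x)) := by
  unfold Hf
  simp only [mem_singleton, mem_insert, forall_eq, forall_eq_or_imp, Fin.sum_univ_four, rp, rX,
    Matrix.cons_val]
  norm_num
  have e0 : (1 - x) * (1 - x) + x * (1 - x) = 1 - x := by ring
  rw [e0]
  ring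

theorem H_bc (x : ℝ) : Hf (rp x) rX {1, 2} =
    -((1 - x) * (1 - x) * Real.log ((1 - x) * (1 - x)) + x * (1 - x) * Real.log (x * (1 - x)) + x * Real.log x) := by
  unfold Hf
  simp only [mem_singleton, mem_insert, forall_eq, forall_eq_or_imp, Fin.sum_univ_four, rp, rX,
    Matrix.cons_val]
  norm_num
  have e0 : x * (1 - x) + x * x = x := by ring
  rw [e0]
  ring

theorem H_bd (x : ℝ) : Hf (rp x) rX {1, 3} =
    -((1 - x) * (1 - x) * Real.log ((1 - x) * (1 - x)) + x * (1 - x) * Real.log (x * (1 - x)) + x * Real.log x) := by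
  unfold Hf
  simp only [mem_singleton, mem_insert, forall_eq, forall_eq_or_imp, Fin.sum_univ_four, rp, rX,
    Matrix.cons_val]
  norm_num
  have e0 : x * (1 - x) + x * x = x := by ring
  rw [e0]
  ring

theorem H_cd (x : ℝ) : Hf (rp x) rX {2, 3} =
    -((1 - x) * (1 - x) * Real.log ((1 - x) * (1 - x)) + 2 * (x * (1 - x) * Real.log (x * (1 - x))) + x * x * Real.log (x * x)) := by
  unfold Hf
  simp only [mem_singleton, mem_insert, forall_eq, forall_eq_or_imp, Fin.sum_univ_four, rp, rX,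
    Matrix.cons_val]
  norm_num
  ring

theorem H_abc (x : ℝ) : Hf (rp x) rX {0, 1, 2} =
    -((1 - x) * (1 - x) * Real.log ((1 - x) * (1 - x)) + 2 * (x * (1 - x) * Real.log (x * (1 - x))) + x * x * Real.log (x * x)) := by
  unfold Hf
  simp only [mem_singleton, mem_insert, forall_eq, forall_eq_or_imp, Fin.sum_univ_four, rp, rX,
    Matrix.cons_val]
  norm_num
  ring

theorem H_abd (x : ℝ) : Hf (rp x) rX {0, 1, 3} =
    -((1 - x) * (1 - x) * Real.log ((1 - x) * (1 - x)) + 2 * (x * (1 - x) * Real.log (x * (1 - x))) + x * x * Real.log (x * x)) := by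
  unfold Hf
  simp only [mem_singleton, mem_insert, forall_eq, forall_eq_or_imp, Fin.sum_univ_four, rp, rX,
    Matrix.cons_val]
  norm_num
  ring

theorem H_acd (x : ℝ) : Hf (rp x) rX {0, 2, 3} =
    -((1 - x) * (1 - x) * Real.log ((1 - x) * (1 - x)) + 2 * (x * (1 - x) * Real.log (x * (1 - x))) + x * x * Real.log (x * x)) := by
  unfold Hf
  simp only [mem_singleton, mem_insert, forall_eq, forall_eq_or_imp, Fin.sum_univ_four, rp, rX,
    Matrix.cons_val]
  norm_num
  ring

theorem H_abcd (x : ℝ) : Hf (rp x) rX {0, 1, 2, 3} =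
    -((1 - x) * (1 - x) * Real.log ((1 - x) * (1 - x)) + 2 * (x * (1 - x) * Real.log (x * (1 - x))) + x * x * Real.log (x * x)) := by
  unfold Hf
  simp only [mem_singleton, mem_insert, forall_eq, forall_eq_or_imp, Fin.sum_univ_four, rp, rX,
    Matrix.cons_val]
  norm_num
  ring

/-- The mutual informations of the rare bits. -/
theorem rare_I {x : ℝ} (hx0 : 0 < x) (hx1 : x ≤ 1 / 2) :
    x ^ 2 * (-Real.log x - Real.log 2 - 1) ≤ I (Hf (rp x) rX) {0} {1} ∅ := by
  have hq : 0 < 1 - x := by linarith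
  have h2x : 0 < 2 - x := by linarith
  unfold I
  rw [show ({0} ∪ ∅ : Finset (Fin 4)) = {0} from by decide,
    show ({1} ∪ ∅ : Finset (Fin 4)) = {1} from by decide,
    show ({0} ∪ {1} ∪ ∅ : Finset (Fin 4)) = {0, 1} from by decide, H_a, H_b, H_ab, H_empty]
  -- the three estimates
  have h1 : (1 - x * x) * Real.log (1 - x * x) ≤ 0 := by
    apply mul_nonpos_of_nonneg_of_nonpos (by nlinarith)
    exact Real.log_nonpos (by nlinarith) (by nlinarith)
  have h2 : Real.log (x * (2 - x)) = Real.log x + Real.log (2 - x) :=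
    Real.log_mul hx0.ne' h2x.ne'
  have h3 : Real.log (2 * (x * (1 - x))) = Real.log 2 + Real.log x + Real.log (1 - x) := by
    rw [Real.log_mul (by norm_num) (by positivity), Real.log_mul hx0.ne' hq.ne']
    ring
  have h4 : Real.log (2 - x) - Real.log 2 - Real.log (1 - x) ≤ x / (2 * (1 - x)) := by
    have e1 : Real.log (2 - x) - Real.log 2 - Real.log (1 - x) =
        Real.log ((2 - x) / (2 * (1 - x))) := by
      rw [Real.log_div h2x.ne' (by positivity), Real.log_mul (by norm_num) hq.ne']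
      ring
    have e2 : (2 - x) / (2 * (1 - x)) = 1 + x / (2 * (1 - x)) := by
      field_simp
      ring
    rw [e1, e2]
    have := Real.log_le_sub_one_of_pos (show 0 < 1 + x / (2 * (1 - x)) by positivity)
    linarith
  have h5 : Real.log (2 - x) ≤ Real.log 2 := Real.log_le_log h2x (by linarith)
  have h6 : 2 * (x * (1 - x)) * (x / (2 * (1 - x))) = x ^ 2 := by
    field_simp
  have h7 := mul_le_mul_of_nonneg_left h4 (by positivity : 0 ≤ 2 * (x * (1 - x)))
  rw [h6] at h7
  have h8 := mul_le_mul_of_nonneg_left h5 (by positivity : 0 ≤ x ^ 2)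
  rw [h2, h3]
  nlinarith

theorem neg_log_le {x : ℝ} (hx0 : 0 < x) (hx1 : x ≤ 1 / 2) :
    -Real.log (1 - x) * (1 - x) ≤ x := by
  have hq : 0 < 1 - x := by linarith
  have h1 := Real.log_le_sub_one_of_pos (show 0 < (1 - x)⁻¹ by positivity)
  rw [Real.log_inv] at h1
  have h2 := mul_le_mul_of_nonneg_right h1 hq.le
  have h3 : ((1 - x)⁻¹ - 1) * (1 - x) = x := by
    field_simp
    ring
  linarith

theorem rare_H4 {x : ℝ} (hx0 : 0 < x) (hx1 : x ≤ 1 / 2) {hab hbc habc : ℝ}
    (h1 : hab = Hf (rp x) rX {0, 1}) (h2 : hbc = Hf (rp x) rX {1, 2})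
    (h3 : habc = Hf (rp x) rX {0, 1, 2}) :
    hab + hbc - habc - Hf (rp x) rX {1} ≤ x ^ 2 := by
  have hq : 0 < 1 - x := by linarith
  have h2x : 0 < 2 - x := by linarith
  rw [h1, h2, h3, H_ab, H_bc, H_abc, H_b]
  have e2 : Real.log (x * (2 - x)) = Real.log x + Real.log (2 - x) :=
    Real.log_mul hx0.ne' h2x.ne'
  have e3 : Real.log (2 * (x * (1 - x))) = Real.log 2 + Real.log x + Real.log (1 - x) := by
    rw [Real.log_mul (by norm_num) (by positivity), Real.log_mul hx0.ne' hq.ne']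
    ring
  have e4 : Real.log (x * (1 - x)) = Real.log x + Real.log (1 - x) :=
    Real.log_mul hx0.ne' hq.ne'
  have e5 : Real.log (2 - x) ≤ Real.log 2 - x / 2 := by
    have a1 : Real.log (2 - x) = Real.log 2 + Real.log (1 - x / 2) := by
      rw [← Real.log_mul (by norm_num) (by linarith)]
      congr 1
      ring
    have a2 := Real.log_le_sub_one_of_pos (show 0 < 1 - x / 2 by linarith)
    linarith
  have e6 := mul_le_mul_of_nonneg_left e5 (by positivity : 0 ≤ x * (2 - x))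
  have e7 := mul_le_mul_of_nonneg_left (neg_log_le hx0 hx1) hx0.le
  have e8 : Real.log 2 ≤ 3 / 4 := by
    have := Real.log_two_lt_d9
    linarith
  have e9 := mul_le_mul_of_nonneg_left e8 (by positivity : 0 ≤ x ^ 2)
  have e10 : x ^ 2 * x ≤ x ^ 2 * (1 / 2) := mul_le_mul_of_nonneg_left hx1 (by positivity)
  rw [e2, e3, e4]
  nlinarith

theorem rare_H6 {x : ℝ} (hx0 : 0 < x) (hx1 : x ≤ 1 / 2) :
    I (Hf (rp x) rX) {2} {3} {0} ≤ 2 * x ^ 2 := by
  have hq : 0 < 1 - x := by linarith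
  unfold I
  rw [show ({2} ∪ {0} : Finset (Fin 4)) = {0, 2} from by decide,
    show ({3} ∪ {0} : Finset (Fin 4)) = {0, 3} from by decide,
    show ({2} ∪ {3} ∪ {0} : Finset (Fin 4)) = {0, 2, 3} from by decide, H_ac, H_ad, H_acd, H_a]
  have h1 : (1 - x * x) * Real.log (1 - x * x) ≤ 0 := by
    apply mul_nonpos_of_nonneg_of_nonpos (by nlinarith)
    exact Real.log_nonpos (by nlinarith) (by nlinarith)
  have h2 : Real.log ((1 - x) * (1 - x)) = 2 * Real.log (1 - x) := by
    rw [Real.log_mul hq.ne' hq.ne']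
    ring
  have e7 := mul_le_mul_of_nonneg_left (neg_log_le hx0 hx1) hx0.le
  rw [h2]
  nlinarith

theorem rare_B {x : ℝ} (hx0 : 0 < x) (hx1 : x ≤ 1 / 2) :
    I (Hf (rp x) rX) {1} {2, 3} {0} ≤ 2 * x * (-Real.log x + 1) := by
  have hq : 0 < 1 - x := by linarith
  unfold I
  rw [show ({1} ∪ {0} : Finset (Fin 4)) = {0, 1} from by decide,
    show ({2, 3} ∪ {0} : Finset (Fin 4)) = {0, 2, 3} from by decide,
    show ({1} ∪ {2, 3} ∪ {0} : Finset (Fin 4)) = {0, 1, 2, 3} from by decide, H_ab, H_acd,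
    H_abcd, H_a]
  have h1 : (1 - x * x) * Real.log (1 - x * x) ≤ 0 := by
    apply mul_nonpos_of_nonneg_of_nonpos (by nlinarith)
    exact Real.log_nonpos (by nlinarith) (by nlinarith)
  have h2 : Real.log ((1 - x) * (1 - x)) = 2 * Real.log (1 - x) := by
    rw [Real.log_mul hq.ne' hq.ne']
    ring
  have e3 : Real.log (2 * (x * (1 - x))) = Real.log 2 + Real.log x + Real.log (1 - x) := by
    rw [Real.log_mul (by norm_num) (by positivity), Real.log_mul hx0.ne' hq.ne']
    ring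
  have e7 := neg_log_le hx0 hx1
  have e8 : 0 < Real.log 2 := Real.log_pos (by norm_num)
  have e9 : Real.log x ≤ 0 := Real.log_nonpos hx0.le (by linarith)
  have e10 := mul_le_mul_of_nonneg_left e7 hx0.le
  have e11 := mul_le_mul_of_nonneg_left e7 hq.le
  have e12 : x ^ 2 * Real.log x ≤ 0 := mul_nonpos_of_nonneg_of_nonpos (by positivity) e9
  have e13 : 0 ≤ x * (1 - x) * Real.log 2 := by positivity
  rw [h2, e3]
  nlinarith

theorem rare_zero1 {x : ℝ} (hx0 : 0 < x) (hx1 : x ≤ 1 / 2) :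
    I (Hf (rp x) rX) {0} {1} {2} = 0 := by
  have hq : 0 < 1 - x := by linarith
  unfold I
  rw [show ({0} ∪ {2} : Finset (Fin 4)) = {0, 2} from by decide,
    show ({1} ∪ {2} : Finset (Fin 4)) = {1, 2} from by decide,
    show ({0} ∪ {1} ∪ {2} : Finset (Fin 4)) = {0, 1, 2} from by decide, H_ac, H_bc, H_abc, H_c]
  ring

theorem rare_zero2 {x : ℝ} (hx0 : 0 < x) (hx1 : x ≤ 1 / 2) :
    I (Hf (rp x) rX) {0} {1} {3} = 0 := by
  have hq : 0 < 1 - x := by linarith
  unfold I
  rw [show ({0} ∪ {3} : Finset (Fin 4)) = {0, 3} from by decide,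
    show ({1} ∪ {3} : Finset (Fin 4)) = {1, 3} from by decide,
    show ({0} ∪ {1} ∪ {3} : Finset (Fin 4)) = {0, 1, 3} from by decide, H_ad, H_bd, H_abd, H_d]
  ring

theorem rare_zero3 {x : ℝ} (hx0 : 0 < x) (hx1 : x ≤ 1 / 2) :
    I (Hf (rp x) rX) {2} {3} ∅ = 0 := by
  have hq : 0 < 1 - x := by linarith
  unfold I
  rw [show ({2} ∪ ∅ : Finset (Fin 4)) = {2} from by decide,
    show ({3} ∪ ∅ : Finset (Fin 4)) = {3} from by decide,
    show ({2} ∪ {3} ∪ ∅ : Finset (Fin 4)) = {2, 3} from by decide, H_c, H_d, H_cd, H_empty,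
    Real.log_mul hq.ne' hq.ne', Real.log_mul hx0.ne' hq.ne', Real.log_mul hx0.ne' hx0.ne']
  ring

/-- **The lower bound.** -/
theorem rare : ∀ᶠ u : ℝ in atTop,
    ¬ Valid (fun T => -vI T + Real.exp (-u) * vB T + 1 / 8 * u * vH T) := by
  filter_upwards [eventually_ge_atTop 20] with u hu hV
  obtain ⟨x, hx⟩ : ∃ x, x = 8 * Real.exp (-u) := ⟨_, rfl⟩
  have hx0 : 0 < x := by rw [hx]; positivity
  have hlog : Real.log x = 3 * Real.log 2 - u := by
    rw [hx, Real.log_mul (by norm_num) (Real.exp_pos _).ne', Real.log_exp,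
      show (8 : ℝ) = 2 ^ 3 by norm_num, Real.log_pow]
    push_cast
    ring
  have hl2 := Real.log_two_lt_d9
  have hl2' := Real.log_two_gt_d9
  have hx1 : x ≤ 1 / 2 := by
    rw [← Real.log_le_log_iff hx0 (by norm_num), hlog, one_div, Real.log_inv]
    linarith
  have h1 := hV 4 (rp x) rX (rp_nonneg hx0.le (by linarith)) (rp_sum x)
  rw [sum_comb] at h1
  have hI := rare_I hx0 hx1
  have hB := rare_B hx0 hx1
  have hz1 := rare_zero1 hx0 hx1
  have hz2 := rare_zero2 hx0 hx1
  have hz3 := rare_zero3 hx0 hx1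
  have h6 := rare_H6 hx0 hx1
  have h4 : I (Hf (rp x) rX) {0} {2} {1} ≤ x ^ 2 := by
    unfold I
    exact rare_H4 hx0 hx1 (by congr 1) (by rw [show ({2} ∪ {1} : Finset (Fin 4)) = {1, 2} from by
      decide]) (by rw [show ({0} ∪ {2} ∪ {1} : Finset (Fin 4)) = {0, 1, 2} from by decide])
  have h5 : I (Hf (rp x) rX) {0} {3} {1} ≤ x ^ 2 := by
    unfold I
    refine rare_H4 hx0 hx1 (by congr 1) ?_ ?_
    · rw [show ({3} ∪ {1} : Finset (Fin 4)) = {1, 3} from by decide, H_bd, H_bc]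
    · rw [show ({0} ∪ {3} ∪ {1} : Finset (Fin 4)) = {0, 1, 3} from by decide, H_abd, H_abc]
  rw [hz1, hz2, hz3] at h1
  have ht : Real.exp (-u) = x / 8 := by rw [hx]; ring
  rw [ht] at h1
  have g1 := mul_le_mul_of_nonneg_left hB (by positivity : 0 ≤ x / 8)
  have g2 : 1 / 8 * u * (0 + 0 + 0 + I (Hf (rp x) rX) {0} {2} {1} + I (Hf (rp x) rX) {0} {3} {1} +
      I (Hf (rp x) rX) {2} {3} {0}) ≤ 1 / 8 * u * (4 * x ^ 2) :=
    mul_le_mul_of_nonneg_left (by linarith) (by linarith)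
  have g3 : x / 8 * (2 * x * (-Real.log x + 1)) = x ^ 2 * ((-Real.log x + 1) / 4) := by ring
  have g4 : x ^ 2 * ((-Real.log x + 1) / 4 + u / 2 - (-Real.log x - Real.log 2 - 1)) < 0 := by
    apply mul_neg_of_pos_of_neg (by positivity)
    rw [hlog]
    linarith
  nlinarith

end Pool.Agent.Helper75.EntS
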