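import Mathlib

set_option autoImplicit false

/-!
A set of parameters that is trapped between two logarithmic curves is not semialgebraic.
-/

namespace Pool.Agent.Helper75.Semialg

open Polynomial Filter Topology

theorem poly_le (q : ℝ[X]) : ∃ (K : ℝ) (J : ℕ), 0 ≤ K ∧ ∀ x : ℝ, 1 ≤ x → |q.eval x| ≤ K * x ^ J := by
  induction q using Polynomial.induction_on' with
  | add p q hp hq =>
    obtain ⟨K, J, hK, h⟩ := hp
    obtain ⟨K', J', hK', h'⟩ := hq
    refine ⟨K + K', max J J', by positivity, fun x hx => ?_⟩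
    rw [eval_add]
    have h1 := h x hx
    have h2 := h' x hx
    have h3 : x ^ J ≤ x ^ max J J' := pow_le_pow_right₀ hx (le_max_left _ _)
    have h4 : x ^ J' ≤ x ^ max J J' := pow_le_pow_right₀ hx (le_max_right _ _)
    have h5 := mul_le_mul_of_nonneg_left h3 hK
    have h6 := mul_le_mul_of_nonneg_left h4 hK'
    have h7 := abs_add_le (eval x p) (eval x q)
    have h8 : (K + K') * x ^ max J J' = K * x ^ max J J' + K' * x ^ max J J' := by ring
    linarith
  | monomial n a =>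
    refine ⟨|a|, n, abs_nonneg _, fun x hx => ?_⟩
    rw [eval_monomial, abs_mul, abs_of_nonneg (by positivity : (0 : ℝ) ≤ x ^ n)]

theorem evalEval_monomial' (x t : ℝ) (n : ℕ) (a : ℝ[X]) :
    evalEval x t (monomial n a) = a.eval x * t ^ n := by
  rw [evalEval, eval_monomial, eval_mul, eval_pow, eval_C]

theorem poly2_le (q : ℝ[X][X]) : ∃ (K : ℝ) (J : ℕ), 0 ≤ K ∧ ∀ x t : ℝ, 1 ≤ x → 0 ≤ t → t ≤ 1 →
    |evalEval x t q| ≤ K * x ^ J := by
  induction q using Polynomial.induction_on' with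
  | add p q hp hq =>
    obtain ⟨K, J, hK, h⟩ := hp
    obtain ⟨K', J', hK', h'⟩ := hq
    refine ⟨K + K', max J J', by positivity, fun x t hx ht0 ht1 => ?_⟩
    rw [evalEval_add]
    have h1 := h x t hx ht0 ht1
    have h2 := h' x t hx ht0 ht1
    have h3 : x ^ J ≤ x ^ max J J' := pow_le_pow_right₀ hx (le_max_left _ _)
    have h4 : x ^ J' ≤ x ^ max J J' := pow_le_pow_right₀ hx (le_max_right _ _)
    have h5 := mul_le_mul_of_nonneg_left h3 hK
    have h6 := mul_le_mul_of_nonneg_left h4 hK'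
    have h7 := abs_add_le (evalEval x t p) (evalEval x t q)
    have h8 : (K + K') * x ^ max J J' = K * x ^ max J J' + K' * x ^ max J J' := by ring
    linarith
  | monomial n a =>
    obtain ⟨K, J, hK, h⟩ := poly_le a
    refine ⟨K, J, hK, fun x t hx ht0 ht1 => ?_⟩
    rw [evalEval_monomial', abs_mul, abs_of_nonneg (by positivity : (0 : ℝ) ≤ t ^ n)]
    have h1 := h x hx
    have h2 : t ^ n ≤ 1 := pow_le_one₀ ht0 ht1
    have h3 : 0 ≤ |eval x a| := abs_nonneg _
    nlinarith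

theorem exists_lower {r : ℝ[X]} (hr : r ≠ 0) : ∃ δ L : ℝ, 0 < δ ∧ 1 ≤ L ∧ ∀ x, L ≤ x →
    δ ≤ |r.eval x| := by
  rcases Nat.eq_zero_or_pos r.natDegree with h0 | h0
  · rw [eq_C_of_natDegree_eq_zero h0]
    refine ⟨|r.coeff 0|, 1, ?_, le_rfl, fun x _ => by rw [eval_C]⟩
    rw [abs_pos]
    intro h
    apply hr
    rw [eq_C_of_natDegree_eq_zero h0, h, C_0]
  · have h1 := Polynomial.abs_tendsto_atTop r (natDegree_pos_iff_degree_pos.1 h0)
    obtain ⟨L, hL⟩ := eventually_atTop.1 (h1.eventually_ge_atTop 1)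
    exact ⟨1, max 1 L, one_pos, le_max_left _ _, fun x hx => hL x ((le_max_right _ _).trans hx)⟩

/-- A nonzero polynomial does not vanish at `(x, t)` if `x` is large and `t` is small. -/
theorem nonvanish {P : ℝ[X][X]} (hP : P ≠ 0) : ∃ (K : ℝ) (J : ℕ) (L : ℝ), 0 ≤ K ∧ 1 ≤ L ∧
    ∀ x t : ℝ, L ≤ x → 0 < t → t ≤ 1 → t * (K * x ^ J) < 1 → evalEval x t P ≠ 0 := by
  obtain ⟨m, hm⟩ : ∃ m, m = P.natTrailingDegree := ⟨_, rfl⟩
  have hdvd : X ^ m ∣ P := by
    rw [X_pow_dvd_iff]
    intro d hd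
    exact coeff_eq_zero_of_lt_natTrailingDegree (by rw [← hm]; exact hd)
  obtain ⟨R, hR⟩ := hdvd
  have hR0 : R.coeff 0 ≠ 0 := by
    have h1 : P.coeff m ≠ 0 := by
      rw [hm]
      exact trailingCoeff_nonzero_iff_nonzero.2 hP
    have h2 : P.coeff (0 + m) = R.coeff 0 := by
      rw [hR, mul_comm, coeff_mul_X_pow]
    rw [Nat.zero_add] at h2
    rwa [← h2]
  obtain ⟨δ, L, hδ, hL, hlow⟩ := exists_lower hR0
  obtain ⟨K, J, hK, hup⟩ := poly2_le R.divX
  refine ⟨K / δ, J, L, by positivity, hL, fun x t hx ht0 ht1 hlt => ?_⟩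
  have h1 : evalEval x t R = evalEval x t R.divX * t + (R.coeff 0).eval x := by
    conv_lhs => rw [← divX_mul_X_add R]
    rw [evalEval_add, evalEval_mul, evalEval_X, evalEval_C]
  have h2 := hlow x hx
  have h3 := hup x t (hL.trans hx) ht0.le ht1
  have h4 : |evalEval x t R.divX * t| < δ := by
    rw [abs_mul, abs_of_pos ht0]
    have h5 : |evalEval x t R.divX| * t ≤ K * x ^ J * t := mul_le_mul_of_nonneg_right h3 ht0.le
    have h6 : t * (K / δ * x ^ J) = K * x ^ J * t / δ := by ring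
    rw [h6, div_lt_one hδ] at hlt
    linarith
  have h5 : evalEval x t R ≠ 0 := by
    intro h
    rw [h] at h1
    have h6 : (R.coeff 0).eval x = -(evalEval x t R.divX * t) := by linarith
    rw [h6, abs_neg] at h2
    linarith
  rw [hR, evalEval_mul, evalEval_pow, evalEval_X]
  exact mul_ne_zero (pow_ne_zero _ ht0.ne') h5

theorem continuous_evalEval (P : ℝ[X][X]) (t : ℝ) : Continuous fun x => evalEval x t P := by
  unfold evalEval
  exact Polynomial.continuous _

/-- Between two logarithmic curves the sign of a polynomial does not change. -/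
theorem sign_const (P : ℝ[X][X]) {c C : ℝ} (hc : 0 < c) (hcC : c ≤ C) : ∀ᶠ u : ℝ in atTop,
    ((evalEval (c * u) (Real.exp (-u)) P = 0 ↔ evalEval (C * u) (Real.exp (-u)) P = 0) ∧
      (0 < evalEval (c * u) (Real.exp (-u)) P ↔ 0 < evalEval (C * u) (Real.exp (-u)) P)) := by
  by_cases hP : P = 0
  · rw [hP]
    simp
  obtain ⟨K, J, L, hK, hL, h⟩ := nonvanish hP
  have h1 : Tendsto (fun u : ℝ => K * C ^ J * (u ^ J * Real.exp (-u))) atTop (𝓝 0) := by
    have := (Real.tendsto_pow_mul_exp_neg_atTop_nhds_zero J).const_mul (K * C ^ J)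
    rwa [mul_zero] at this
  have h2 : Tendsto (fun u : ℝ => c * u) atTop atTop := tendsto_id.const_mul_atTop hc
  filter_upwards [h1.eventually_lt_const one_pos, h2.eventually_ge_atTop L,
    eventually_ge_atTop 0] with u hu1 hu2 hu0
  have hcu : c * u ≤ C * u := mul_le_mul_of_nonneg_right hcC hu0
  have hnz : ∀ x ∈ Set.Icc (c * u) (C * u), evalEval x (Real.exp (-u)) P ≠ 0 := by
    intro x hx
    apply h x _ (hu2.trans hx.1) (Real.exp_pos _) (by
      rw [Real.exp_le_one_iff]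
      linarith)
    have hx0 : 0 ≤ x := by linarith [hx.1]
    have h3 : x ^ J ≤ (C * u) ^ J := pow_le_pow_left₀ hx0 hx.2 J
    have h4 : K * x ^ J ≤ K * (C * u) ^ J := mul_le_mul_of_nonneg_left h3 hK
    have h5 := mul_le_mul_of_nonneg_left h4 (Real.exp_pos (-u)).le
    have h6 : Real.exp (-u) * (K * (C * u) ^ J) = K * C ^ J * (u ^ J * Real.exp (-u)) := by
      rw [mul_pow]
      ring
    linarith
  have ha := hnz (c * u) ⟨le_rfl, hcu⟩
  have hb := hnz (C * u) ⟨hcu, le_rfl⟩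
  refine ⟨⟨fun h3 => absurd h3 ha, fun h3 => absurd h3 hb⟩, ?_⟩
  have hcont := (continuous_evalEval P (Real.exp (-u))).continuousOn (s := Set.Icc (c * u) (C * u))
  constructor
  · intro h3
    by_contra h4
    have h5 : evalEval (C * u) (Real.exp (-u)) P < 0 := lt_of_le_of_ne (not_lt.1 h4) hb
    obtain ⟨x, hx, hx0⟩ := intermediate_value_Icc' hcu hcont ⟨h5.le, h3.le⟩
    exact hnz x hx hx0
  · intro h3
    by_contra h4
    have h5 : evalEval (c * u) (Real.exp (-u)) P < 0 := lt_of_le_of_ne (not_lt.1 h4) ha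
    obtain ⟨x, hx, hx0⟩ := intermediate_value_Icc hcu hcont ⟨h5.le, h3.le⟩
    exact hnz x hx hx0

/-- The substitution of an affine plane in a polynomial. -/
noncomputable def subst {σ : Type*} (α β γ : σ → ℝ) (f : MvPolynomial σ ℝ) : ℝ[X][X] :=
  MvPolynomial.eval₂ ((C : ℝ[X] →+* ℝ[X][X]).comp C)
    (fun s => C (C (α s)) + C (C (β s)) * X + C (C (γ s) * X)) f

theorem evalEval_subst {σ : Type*} (α β γ : σ → ℝ) (f : MvPolynomial σ ℝ) (x t : ℝ) :
    evalEval x t (subst α β γ f) = MvPolynomial.eval (fun s => α s + t * β s + x * γ s) f := by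
  unfold subst
  induction f using MvPolynomial.induction_on with
  | C a =>
    rw [MvPolynomial.eval₂_C, MvPolynomial.eval_C, RingHom.comp_apply, evalEval_C, eval_C]
  | add p q hp hq =>
    rw [MvPolynomial.eval₂_add, evalEval_add, hp, hq, MvPolynomial.eval_add]
  | mul_X p s hp =>
    rw [MvPolynomial.eval₂_mul, evalEval_mul, hp, MvPolynomial.eval₂_X, MvPolynomial.eval_mul,
      MvPolynomial.eval_X]
    congr 1
    rw [evalEval_add, evalEval_add, evalEval_mul, evalEval_C, evalEval_C, evalEval_X, evalEval_C,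
      eval_C, eval_C, eval_mul, eval_C, eval_X]
    ring

/-- A set of vectors that contains `α + t β + x γ` for `x` above one multiple of `log (1 / t)`, and
does not contain it for `x` below another one, is not semialgebraic. -/
theorem no_semialg {σ : Type*} (α β γ : σ → ℝ) (S : (σ → ℝ) → Prop) {c C : ℝ} (hc : 0 < c)
    (hcC : c ≤ C)
    (hup : ∀ᶠ u : ℝ in atTop, S (fun s => α s + Real.exp (-u) * β s + C * u * γ s))
    (hlow : ∀ᶠ u : ℝ in atTop, ¬ S (fun s => α s + Real.exp (-u) * β s + c * u * γ s))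
    (n m : ℕ) (f : Fin n → MvPolynomial σ ℝ) (g : Fin n → Fin m → MvPolynomial σ ℝ)
    (hS : ∀ v : σ → ℝ, S v ↔ ∃ j, MvPolynomial.eval v (f j) = 0 ∧
      ∀ l, 0 < MvPolynomial.eval v (g j l)) : False := by
  have h1 : ∀ᶠ u : ℝ in atTop, ∀ j : Fin n,
      ((evalEval (c * u) (Real.exp (-u)) (subst α β γ (f j)) = 0 ↔
        evalEval (C * u) (Real.exp (-u)) (subst α β γ (f j)) = 0) ∧
      (0 < evalEval (c * u) (Real.exp (-u)) (subst α β γ (f j)) ↔
        0 < evalEval (C * u) (Real.exp (-u)) (subst α β γ (f j)))) :=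
    eventually_all.2 fun j => sign_const _ hc hcC
  have h2 : ∀ᶠ u : ℝ in atTop, ∀ j : Fin n, ∀ l : Fin m,
      ((evalEval (c * u) (Real.exp (-u)) (subst α β γ (g j l)) = 0 ↔
        evalEval (C * u) (Real.exp (-u)) (subst α β γ (g j l)) = 0) ∧
      (0 < evalEval (c * u) (Real.exp (-u)) (subst α β γ (g j l)) ↔
        0 < evalEval (C * u) (Real.exp (-u)) (subst α β γ (g j l)))) :=
    eventually_all.2 fun j => eventually_all.2 fun l => sign_const _ hc hcC
  obtain ⟨u, ⟨⟨h3, h4⟩, h5⟩, h6⟩ := (((h1.and h2).and hup).and hlow).exists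
  apply h6
  rw [hS] at h5 ⊢
  obtain ⟨j, h7, h8⟩ := h5
  refine ⟨j, ?_, fun l => ?_⟩
  · rw [← evalEval_subst α β γ (f j)] at h7 ⊢
    exact (h3 j).1.2 h7
  · have h9 := h8 l
    rw [← evalEval_subst α β γ (g j l)] at h9 ⊢
    exact (h4 j l).2.2 h9

end Pool.Agent.Helper75.Semialg
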