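import Mathlib
import Pool.Agent.Helper75.Semialg
import Pool.Agent.Helper75.Rare

set_option autoImplicit false

/-!
The cone of linear information inequalities for four random variables is not semialgebraic:
assembly from the inequality `Star`.
-/

namespace Pool.Agent.Helper75.EntS

open Finset Filter

/-- The sum of the six `small` terms. -/
noncomputable def sH (h : Finset (Fin 4) → ℝ) : ℝ :=
  I h {0} {1} {2} + I h {0} {1} {3} + I h {2} {3} ∅ + I h {0} {2} {1} + I h {0} {3} {1} +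
    I h {2} {3} {0}

/-- The inequality (to be proved). -/
def Star : Prop :=
  ∀ (N : ℕ) (p : Fin N → ℝ) (X : Fin 4 → Fin N → Fin N), (∀ ω, 0 ≤ p ω) → ∑ ω, p ω = 1 →
    0 ≤ I (Hf p X) {1} {2, 3} {0} ∧ 0 ≤ sH (Hf p X) ∧ ∀ s : ℕ,
      I (Hf p X) {0} {1} ∅ ≤ (1 / 2) ^ s * I (Hf p X) {1} {2, 3} {0} + (2 * s + 1) * sH (Hf p X)

theorem star_up (h : Star) : ∀ᶠ u : ℝ in atTop,
    Valid (fun T => -vI T + Real.exp (-u) * vB T + 8 * u * vH T) := by
  filter_upwards [eventually_ge_atTop 1] with u hu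
  intro N p X hp hp1
  obtain ⟨hB, hH, hs⟩ := h N p X hp hp1
  rw [sum_comb]
  have hlog : 0 < Real.log 2 := Real.log_pos (by norm_num)
  obtain ⟨s, hsu⟩ : ∃ s : ℕ, s = ⌈u / Real.log 2⌉₊ := ⟨_, rfl⟩
  have h1 := hs s
  have h2 : (1 / 2 : ℝ) ^ s ≤ Real.exp (-u) := by
    have e1 : u / Real.log 2 ≤ s := by rw [hsu]; exact Nat.le_ceil _
    rw [div_le_iff₀ hlog] at e1
    have e2 : (1 / 2 : ℝ) ^ s = Real.exp (-(s * Real.log 2)) := by
      rw [Real.exp_neg, mul_comm, Real.exp_mul, Real.exp_log (by norm_num), Real.rpow_natCast,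
        one_div, inv_pow]
    rw [e2]
    exact Real.exp_le_exp.2 (by linarith)
  have h3 : (2 * s + 1 : ℝ) ≤ 8 * u := by
    have e1 : (s : ℝ) < u / Real.log 2 + 1 := by
      rw [hsu]
      exact Nat.ceil_lt_add_one (by positivity)
    have e2 : u / Real.log 2 ≤ 2 * u := by
      rw [div_le_iff₀ hlog]
      have := Real.log_two_gt_d9
      nlinarith
    linarith
  have h4 := mul_le_mul_of_nonneg_right h2 hB
  have h5 := mul_le_mul_of_nonneg_right h3 hH
  unfold sH at h1 h5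
  linarith

theorem not_semialg (h : Star) (n m : ℕ) (f : Fin n → MvPolynomial (Finset (Fin 4)) ℝ)
    (g : Fin n → Fin m → MvPolynomial (Finset (Fin 4)) ℝ)
    (hS : ∀ c : Finset (Fin 4) → ℝ, Valid c ↔ ∃ j, MvPolynomial.eval c (f j) = 0 ∧
      ∀ l, 0 < MvPolynomial.eval c (g j l)) : False :=
  Semialg.no_semialg (fun T => -vI T) vB vH Valid (c := 1 / 8) (C := 8) (by norm_num) (by norm_num)
    (star_up h) rare n m f g hS

theorem final (h : Star) :
    ¬ (∀ k : ℕ, 4 ≤ k →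
      ∃ (n m : ℕ) (f : Fin n → MvPolynomial (Finset (Fin k)) ℝ)
        (g : Fin n → Fin m → MvPolynomial (Finset (Fin k)) ℝ),
        ∀ c : Finset (Fin k) → ℝ,
          ((∀ (N : ℕ) (p : Fin N → ℝ) (X : Fin k → Fin N → Fin N),
              (∀ ω, 0 ≤ p ω) → ∑ ω, p ω = 1 →
                0 ≤ ∑ S : Finset (Fin k), c S *
                  (-∑ ω, p ω * Real.log
                    (∑ ω', if (∀ i ∈ S, X i ω' = X i ω) then p ω' else 0))) ↔
            ∃ j, MvPolynomial.eval c (f j) = 0 ∧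
              ∀ l, 0 < MvPolynomial.eval c (g j l))) := by
  intro hall
  obtain ⟨n, m, f, g, hS⟩ := hall 4 le_rfl
  exact not_semialg h n m f g hS

end Pool.Agent.Helper75.EntS
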