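import Mathlib
import Pool.Agent.Helper75.Assemble
import Pool.Agent.Helper20.Ent.Defs

set_option autoImplicit false

/-!
Translation between the two notations (Helper20.Ent.Defs and Helper75.EntDefs).
-/

namespace Pool.Agent.Helper75.EntS

open Finset

theorem Hf_eq {N : ℕ} (p : Fin N → ℝ) (X : Fin 4 → Fin N → Fin N) :
    Hf p X = Helper20.Ent.Hf p X := rfl

theorem Hf_empty {N : ℕ} (p : Fin N → ℝ) (X : Fin 4 → Fin N → Fin N) (hp : ∑ ω, p ω = 1) :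
    Hf p X ∅ = 0 := by
  unfold Hf
  simp [hp]

theorem I_x (h : Finset (Fin 4) → ℝ) (h0 : h ∅ = 0) : I h {0} {1} ∅ = Helper20.Ent.fx h := by
  unfold I Helper20.Ent.fx
  rw [show ({0} : Finset (Fin 4)) ∪ ∅ = {0} by decide, show ({1} : Finset (Fin 4)) ∪ ∅ = {1} by decide,
    show ({0} : Finset (Fin 4)) ∪ {1} ∪ ∅ = {0, 1} by decide, h0]
  ring

theorem I_B (h : Finset (Fin 4) → ℝ) : I h {1} {2, 3} {0} = Helper20.Ent.fB h := by
  unfold I Helper20.Ent.fB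
  rw [show ({1} : Finset (Fin 4)) ∪ {0} = {0, 1} by decide,
    show ({2, 3} : Finset (Fin 4)) ∪ {0} = {0, 2, 3} by decide,
    show ({1} : Finset (Fin 4)) ∪ {2, 3} ∪ {0} = {0, 1, 2, 3} by decide]

theorem I_H (h : Finset (Fin 4) → ℝ) (h0 : h ∅ = 0) : sH h = Helper20.Ent.fH h := by
  unfold sH I Helper20.Ent.fH
  rw [show ({0} : Finset (Fin 4)) ∪ {2} = {0, 2} by decide,
    show ({1} : Finset (Fin 4)) ∪ {2} = {1, 2} by decide,
    show ({0} : Finset (Fin 4)) ∪ {1} ∪ {2} = {0, 1, 2} by decide,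
    show ({0} : Finset (Fin 4)) ∪ {3} = {0, 3} by decide,
    show ({1} : Finset (Fin 4)) ∪ {3} = {1, 3} by decide,
    show ({0} : Finset (Fin 4)) ∪ {1} ∪ {3} = {0, 1, 3} by decide,
    show ({2} : Finset (Fin 4)) ∪ ∅ = {2} by decide,
    show ({3} : Finset (Fin 4)) ∪ ∅ = {3} by decide,
    show ({2} : Finset (Fin 4)) ∪ {3} ∪ ∅ = {2, 3} by decide,
    show ({0} : Finset (Fin 4)) ∪ {1} = {0, 1} by decide,
    show ({2} : Finset (Fin 4)) ∪ {1} = {1, 2} by decide,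
    show ({0, 2} : Finset (Fin 4)) ∪ {1} = {0, 1, 2} by decide,
    show ({3} : Finset (Fin 4)) ∪ {1} = {1, 3} by decide,
    show ({0, 3} : Finset (Fin 4)) ∪ {1} = {0, 1, 3} by decide,
    show ({2} : Finset (Fin 4)) ∪ {0} = {0, 2} by decide,
    show ({3} : Finset (Fin 4)) ∪ {0} = {0, 3} by decide,
    show ({2} : Finset (Fin 4)) ∪ {3} ∪ {0} = {0, 2, 3} by decide, h0]
  ring

theorem star_of
    (hB : ∀ (N : ℕ) (p : Fin N → ℝ) (X : Fin 4 → Fin N → Fin N), (∀ ω, 0 ≤ p ω) →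
      ∑ ω, p ω = 1 → 0 ≤ Helper20.Ent.fB (Helper20.Ent.Hf p X))
    (hH : ∀ (N : ℕ) (p : Fin N → ℝ) (X : Fin 4 → Fin N → Fin N), (∀ ω, 0 ≤ p ω) →
      ∑ ω, p ω = 1 → 0 ≤ Helper20.Ent.fH (Helper20.Ent.Hf p X))
    (hst : ∀ (s N : ℕ) (p : Fin N → ℝ) (X : Fin 4 → Fin N → Fin N), (∀ ω, 0 ≤ p ω) →
      ∑ ω, p ω = 1 → Helper20.Ent.fx (Helper20.Ent.Hf p X) ≤
        (1 / 2) ^ s * Helper20.Ent.fB (Helper20.Ent.Hf p X) +
          (2 * s + 1) * Helper20.Ent.fH (Helper20.Ent.Hf p X)) : Star := by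
  intro N p X hp hp1
  have h0 := Hf_empty p X hp1
  rw [I_x _ h0, I_B, I_H _ h0, Hf_eq]
  exact ⟨hB N p X hp hp1, hH N p X hp hp1, fun s => hst s N p X hp hp1⟩

end Pool.Agent.Helper75.EntS
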