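import Mathlib

set_option autoImplicit false

namespace Pool.Agent.Helper75.CpProduct

open Topology Set Filter

universe u v w

/-- The space C_p(X): all continuous real functions on X with the topology inherited from the
product space of all real functions on X (pointwise convergence). -/
abbrev Cp (X : Type u) [TopologicalSpace X] : Type u := {f : X → ℝ // Continuous f}

/-- A topological space has countable tightness: whenever a point is in the closure of a set,
it is in the closure of a countable subset of that set. -/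
def CountablyTight (Z : Type u) [TopologicalSpace Z] : Prop :=
  ∀ (A : Set Z) (z : Z), z ∈ closure A → ∃ B : Set Z, B ⊆ A ∧ B.Countable ∧ z ∈ closure B

lemma ct_iff {Y : Type u} [TopologicalSpace Y] (S : Set Y) :
    CountablyTight S ↔ ∀ A : Set Y, A ⊆ S → ∀ z ∈ S, z ∈ closure A →
      ∃ B : Set Y, B ⊆ A ∧ B.Countable ∧ z ∈ closure B := by
  constructor
  · intro h A hA z hz hcl
    have h1 : (⟨z, hz⟩ : S) ∈ closure (Subtype.val ⁻¹' A : Set S) := by
      rw [closure_subtype, Subtype.image_preimage_coe, inter_eq_right.2 hA]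
      exact hcl
    obtain ⟨B, hBA, hBc, hzB⟩ := h _ _ h1
    refine ⟨Subtype.val '' B, ?_, hBc.image _, ?_⟩
    · rintro _ ⟨b, hb, rfl⟩
      exact hBA hb
    · rw [closure_subtype] at hzB
      exact hzB
  · intro h A z hz
    rw [closure_subtype] at hz
    obtain ⟨B, hBA, hBc, hzB⟩ := h (Subtype.val '' A) (by rintro _ ⟨a, _, rfl⟩; exact a.2)
      z z.2 hz
    refine ⟨Subtype.val ⁻¹' B, ?_, hBc.preimage Subtype.val_injective, ?_⟩
    · intro b hb
      obtain ⟨a, ha, hab⟩ := hBA hb
      rwa [← Subtype.ext hab]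
    · rw [closure_subtype, Subtype.image_preimage_coe]
      have : S ∩ B = B := by
        apply inter_eq_right.2
        intro b hb
        obtain ⟨a, _, hab⟩ := hBA hb
        rw [← hab]; exact a.2
      rwa [this]

section Sep

variable {X : Type u} [TopologicalSpace X] {M : Type v} [PseudoMetricSpace M]

/-- bump function around the point `i` -/
noncomputable def bump (F : X → M) (ε : ℝ) (i x : X) : ℝ := max 0 (1 - 3 * dist (F x) (F i) / ε)

lemma bump_cont {F : X → M} (hF : Continuous F) (ε : ℝ) (i : X) : Continuous (bump F ε i) := by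
  unfold bump; fun_prop

omit [TopologicalSpace X] in
lemma bump_self (F : X → M) (ε : ℝ) (i : X) : bump F ε i i = 1 := by
  simp [bump]

omit [TopologicalSpace X] in
lemma dist_lt_of_bump {F : X → M} {ε : ℝ} (hε : 0 < ε) {i x : X} (h : bump F ε i x ≠ 0) :
    dist (F x) (F i) < ε / 3 := by
  by_contra hc
  push Not at hc
  apply h
  unfold bump
  apply max_eq_left
  have : 1 ≤ 3 * dist (F x) (F i) / ε := by
    rw [le_div_iff₀ hε]; linarith
  linarith

lemma countable_of_separated {F : X → M} (hF : Continuous F)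
    (hgood : ∀ S : Set (Cp X), IsCompact S → CountablyTight S) {ε : ℝ} (hε : 0 < ε)
    (S : Set X) (hS : ∀ x ∈ S, ∀ y ∈ S, x ≠ y → ε ≤ dist (F x) (F y)) : S.Countable := by
  classical
  -- the coefficient
  let c : Bool → ℝ := fun b => if b then 1 else 0
  have hc : Continuous c := continuous_of_discreteTopology
  have hlf : ∀ r : S → Bool, LocallyFinite
      (fun i : S => Function.support (fun x => c (r i) * bump F ε i x)) := by
    intro r x
    refine ⟨F ⁻¹' Metric.ball (F x) (ε / 6), hF.continuousAt.preimage_mem_nhds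
      (Metric.ball_mem_nhds _ (by linarith)), ?_⟩
    apply Set.Subsingleton.finite
    rintro i ⟨y, hy1, hy2⟩ j ⟨z, hz1, hz2⟩
    by_contra hij
    have hij' : (i : X) ≠ j := fun h => hij (Subtype.ext h)
    have h1 := dist_lt_of_bump hε (right_ne_zero_of_mul hy1)
    have h2 := dist_lt_of_bump hε (right_ne_zero_of_mul hz1)
    have h3 : dist (F y) (F x) < ε / 6 := hy2
    have h4 : dist (F z) (F x) < ε / 6 := hz2
    have h5 := hS i i.2 j j.2 hij'
    have h6 : dist (F i) (F j) ≤ dist (F y) (F i) + dist (F y) (F x) + dist (F z) (F x)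
        + dist (F z) (F j) := by
      calc dist (F i) (F j) ≤ dist (F i) (F y) + dist (F y) (F j) := dist_triangle _ _ _
        _ ≤ dist (F i) (F y) + (dist (F y) (F x) + dist (F x) (F j)) := by
            gcongr; exact dist_triangle _ _ _
        _ ≤ dist (F i) (F y) + (dist (F y) (F x) + (dist (F x) (F z) + dist (F z) (F j))) := by
            gcongr; exact dist_triangle _ _ _
        _ = _ := by rw [dist_comm (F i) (F y), dist_comm (F x) (F z)]; ring
    linarith
  let Φ : (S → Bool) → Cp X := fun r =>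
    ⟨fun x => ∑ᶠ i : S, c (r i) * bump F ε i x,
      continuous_finsum (fun i => (bump_cont hF ε i).const_mul _) (hlf r)⟩
  have hfin : ∀ x : X, {i : S | bump F ε i x ≠ 0}.Finite := by
    intro x
    apply Set.Subsingleton.finite
    intro i hi j hj
    by_contra hij
    have hij' : (i : X) ≠ j := fun h => hij (Subtype.ext h)
    have h1 := dist_lt_of_bump hε hi
    have h2 := dist_lt_of_bump hε hj
    have h5 := hS i i.2 j j.2 hij'
    have h6 := dist_triangle_left (F i) (F j) (F x)
    linarith
  have hval : ∀ (r : S → Bool) (x : X), (Φ r).1 x =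
      ∑ i ∈ (hfin x).toFinset, c (r i) * bump F ε i x := by
    intro r x
    apply finsum_eq_sum_of_support_subset
    intro i hi
    simp only [Finite.coe_toFinset, mem_ofPred_eq]
    exact right_ne_zero_of_mul hi
  have hΦ : Continuous Φ := by
    apply Continuous.subtype_mk
    apply continuous_pi
    intro x
    have : (fun r : S → Bool => ∑ᶠ i : S, c (r i) * bump F ε i x) =
        fun r => ∑ i ∈ (hfin x).toFinset, c (r i) * bump F ε i x := by
      ext r; exact hval r x
    rw [this]
    apply continuous_finsetSum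
    intro i _
    exact (hc.comp (continuous_apply i)).mul continuous_const
  have hcomp : IsCompact (range Φ) := isCompact_range hΦ
  have htight := (ct_iff (range Φ)).1 (hgood _ hcomp)
  -- finitely supported elements
  let A : Set (S → Bool) := {r | {i | r i = true}.Finite}
  have hdense : (fun _ => true : S → Bool) ∈ closure A := by
    rw [mem_closure_iff_nhds]
    intro t ht
    rw [nhds_pi, Filter.mem_pi] at ht
    obtain ⟨I, hI, V, hV, hsub⟩ := ht
    refine ⟨fun i => decide (i ∈ I), ?_, ?_⟩
    · apply hsub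
      intro i hi
      simp only [hi, decide_true]
      exact mem_of_mem_nhds (hV i)
    · simpa [A] using hI
  have h1 : Φ (fun _ => true) ∈ closure (Φ '' A) :=
    image_closure_subset_closure_image hΦ ⟨_, hdense, rfl⟩
  obtain ⟨B, hBA, hBc, hB⟩ := htight (Φ '' A) (image_subset_range _ _) _ ⟨_, rfl⟩ h1
  -- choose supports
  have hsup : ∀ b ∈ B, ∃ r ∈ A, Φ r = b := fun b hb => hBA hb
  choose! g hgA hg using hsup
  by_contra hunc
  have hcount : (⋃ b ∈ B, {i : S | g b i = true}).Countable :=
    hBc.biUnion fun b hb => (hgA b hb).countable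
  have hne : ∃ s : S, s ∉ (⋃ b ∈ B, {i : S | g b i = true}) := by
    by_contra hall
    push Not at hall
    apply hunc
    have : (univ : Set S).Countable := hcount.mono fun s _ => hall s
    rwa [countable_univ_iff, ← countable_coe_iff] at *
  obtain ⟨s, hs⟩ := hne
  have hev : ∀ r : S → Bool, (Φ r).1 s = c (r s) := by
    intro r
    change (∑ᶠ i : S, c (r i) * bump F ε i s) = c (r s)
    rw [finsum_eq_single _ s]
    · rw [bump_self, mul_one]
    · intro i hi
      have : bump F ε i s = 0 := by
        by_contra hne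
        have h1 := dist_lt_of_bump hε hne
        have h2 := hS s s.2 i i.2 (fun h => hi (Subtype.ext h.symm))
        linarith
      rw [this, mul_zero]
  have hopen : IsOpen {f : Cp X | 1 / 2 < f.1 s} := by
    apply isOpen_lt continuous_const
    exact (continuous_apply (s : X)).comp continuous_subtype_val
  have hmem : Φ (fun _ => true) ∈ {f : Cp X | 1 / 2 < f.1 s} := by
    simp only [mem_ofPred_eq, hev, c]
    norm_num
  obtain ⟨b, hb1, hb2⟩ := mem_closure_iff.1 hB _ hopen hmem
  have e1 : g b s = false := by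
    by_contra hne
    apply hs
    simp only [mem_iUnion, mem_ofPred_eq]
    exact ⟨b, hb2, by simpa using hne⟩
  have : b.1 s = 0 := by
    rw [← hg b hb2, hev, e1]
    simp [c]
  have h2 : 1 / 2 < b.1 s := hb1
  rw [this] at h2
  norm_num at h2

/-- a countable subset of X whose image is almost dense -/
lemma exists_dense_countable {F : X → M} (hF : Continuous F)
    (hgood : ∀ S : Set (Cp X), IsCompact S → CountablyTight S) :
    ∃ D : Set X, D.Countable ∧ ∀ x : X, ∀ ε > 0, ∃ y ∈ D, dist (F x) (F y) < ε := by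
  have key : ∀ ε > 0, ∃ S : Set X, S.Countable ∧ ∀ x : X, ∃ y ∈ S, dist (F x) (F y) < ε := by
    intro ε hε
    obtain ⟨S, hS⟩ := zorn_subset
      {S : Set X | ∀ x ∈ S, ∀ y ∈ S, x ≠ y → ε ≤ dist (F x) (F y)} (by
        intro c hc hchain
        refine ⟨⋃₀ c, ?_, fun s hs => subset_sUnion_of_mem hs⟩
        rintro x ⟨s, hs, hx⟩ y ⟨t, ht, hy⟩ hxy
        rcases hchain.total hs ht with h | h
        · exact hc ht x (h hx) y hy hxy
        · exact hc hs x hx y (h hy) hxy)
    refine ⟨S, countable_of_separated hF hgood hε S hS.prop, fun x => ?_⟩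
    by_contra hcon
    push Not at hcon
    have hins : insert x S ∈ {S : Set X | ∀ x ∈ S, ∀ y ∈ S, x ≠ y → ε ≤ dist (F x) (F y)} := by
      intro a ha b hb hab
      rcases ha with rfl | ha
      · rcases hb with rfl | hb
        · exact absurd rfl hab
        · exact hcon b hb
      · rcases hb with rfl | hb
        · rw [dist_comm]; exact hcon a ha
        · exact hS.prop a ha b hb hab
    have hx : x ∈ S := hS.le_of_ge hins (subset_insert x S) (mem_insert x S)
    have := hcon x hx
    rw [dist_self] at this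
    linarith
  choose! S hSc hS using key
  refine ⟨⋃ n : ℕ, S (1 / (n + 1)), countable_iUnion fun n => hSc _ (by positivity), ?_⟩
  intro x ε hε
  obtain ⟨n, hn⟩ := exists_nat_one_div_lt hε
  obtain ⟨y, hy, hd⟩ := hS (1 / ((n : ℝ) + 1)) (by positivity) x
  exact ⟨y, mem_iUnion.2 ⟨n, hy⟩, hd.trans hn⟩

end Sep

section Main

variable {X : Type u} [TopologicalSpace X] {K : Type v} [TopologicalSpace K] [CompactSpace K]

/-- For countably many functions there is a countable subset of K whose closure represents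
every point of K as far as these functions are concerned. -/
lemma exists_N (hgood : ∀ S : Set (Cp X), IsCompact S → CountablyTight S)
    (U : Set (Cp (X × K))) (hU : U.Countable) :
    ∃ Q : Set K, Q.Countable ∧ ∀ κ : K, ∃ κ' ∈ closure Q, ∀ z ∈ U, ∀ x : X,
      z.1 (x, κ) = z.1 (x, κ') := by
  classical
  -- the curried maps
  let F : Cp (X × K) → X → C(K, ℝ) := fun z x => ⟨fun κ => z.1 (x, κ), by
    have := z.2; fun_prop⟩
  have hF : ∀ z, Continuous (F z) := by
    intro z
    have := (ContinuousMap.curry (⟨z.1, z.2⟩ : C(X × K, ℝ))).continuous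
    exact this
  have hD := fun z => exists_dense_countable (hF z) hgood
  choose D hDc hD using hD
  let ι : Set (Cp (X × K) × X) := {p | p.1 ∈ U ∧ p.2 ∈ D p.1}
  have hι : ι.Countable := by
    have : ι ⊆ ⋃ z ∈ U, (fun x => (z, x)) '' (D z) := by
      rintro ⟨z, x⟩ ⟨h1, h2⟩
      simp only [mem_iUnion]
      exact ⟨z, h1, x, h2, rfl⟩
    exact (hU.biUnion fun z _ => (hDc z).image _).mono this
  have : Countable ι := hι.to_subtype
  let e : K → (ι → ℝ) := fun κ p => p.1.1.1 (p.1.2, κ)
  have he : Continuous e := by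
    apply continuous_pi
    intro p
    have := p.1.1.2
    fun_prop
  obtain ⟨Q0, hQ0c, hQ0d⟩ := TopologicalSpace.exists_countable_dense (range e)
  have hpre : ∀ y : range e, ∃ κ, e κ = y := fun y => y.2
  choose pre hpre using hpre
  refine ⟨pre '' Q0, hQ0c.image _, fun κ => ?_⟩
  have h1 : e κ ∈ closure (e '' (pre '' Q0)) := by
    have h2 : (⟨e κ, ⟨κ, rfl⟩⟩ : range e) ∈ closure Q0 := hQ0d _
    rw [closure_subtype] at h2
    have h3 : e '' (pre '' Q0) = Subtype.val '' Q0 := by
      rw [image_image]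
      apply image_congr
      intro y _
      exact hpre y
    rw [h3]
    exact h2
  have hcl : IsClosed (e '' closure (pre '' Q0)) :=
    (isClosed_closure.isCompact.image he).isClosed
  have h4 : closure (e '' (pre '' Q0)) ⊆ e '' closure (pre '' Q0) :=
    closure_minimal (image_mono subset_closure) hcl
  obtain ⟨κ', hκ', heq⟩ := h4 h1
  refine ⟨κ', hκ', fun z hz x => ?_⟩
  by_contra hne
  have hpos : 0 < |z.1 (x, κ) - z.1 (x, κ')| := abs_pos.2 (sub_ne_zero.2 hne)
  obtain ⟨y, hy, hdy⟩ := hD z x (|z.1 (x, κ) - z.1 (x, κ')| / 2) (by linarith)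
  have e1 : z.1 (y, κ') = z.1 (y, κ) := congr_fun heq ⟨(z, y), hz, hy⟩
  have d1 : |z.1 (x, κ) - z.1 (y, κ)| ≤ dist (F z x) (F z y) :=
    ContinuousMap.dist_apply_le_dist (f := F z x) (g := F z y) κ
  have d2 : |z.1 (x, κ') - z.1 (y, κ')| ≤ dist (F z x) (F z y) :=
    ContinuousMap.dist_apply_le_dist (f := F z x) (g := F z y) κ'
  rw [e1] at d2
  have d3 : |z.1 (x, κ) - z.1 (x, κ')| ≤ |z.1 (x, κ) - z.1 (y, κ)| +
      |z.1 (x, κ') - z.1 (y, κ)| := by
    have := abs_sub_le (z.1 (x, κ)) (z.1 (y, κ)) (z.1 (x, κ'))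
    rwa [abs_sub_comm (z.1 (y, κ)) (z.1 (x, κ'))] at this
  linarith

/-- The gluing map: a weighted sum of truncated distances to `p` along a sequence in K. -/
noncomputable def Psi (p : Cp (X × K)) (q : ℕ → K) (z : Cp (X × K)) : Cp X :=
  ⟨fun x => ∑' n : ℕ, (1 / 2 : ℝ) ^ n * min 1 |z.1 (x, q n) - p.1 (x, q n)|, by
    have h1 := z.2
    have h2 := p.2
    apply continuous_tsum (u := fun n : ℕ => (1 / 2 : ℝ) ^ n)
    · intro n; fun_prop
    · exact summable_geometric_two
    · intro n x
      rw [norm_mul, Real.norm_of_nonneg (by positivity), Real.norm_of_nonneg (by positivity)]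
      exact mul_le_of_le_one_right (by positivity) (min_le_left _ _)⟩

omit [CompactSpace K] in
lemma Psi_cont (p : Cp (X × K)) (q : ℕ → K) : Continuous (Psi p q) := by
  apply Continuous.subtype_mk
  apply continuous_pi
  intro x
  apply continuous_tsum (u := fun n : ℕ => (1 / 2 : ℝ) ^ n)
  · intro n
    have : Continuous fun z : Cp (X × K) => z.1 (x, q n) :=
      (continuous_apply (x, q n)).comp continuous_subtype_val
    exact continuous_const.mul (continuous_const.min (this.sub continuous_const).abs)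
  · exact summable_geometric_two
  · intro n z
    rw [norm_mul, Real.norm_of_nonneg (by positivity), Real.norm_of_nonneg (by positivity)]
    exact mul_le_of_le_one_right (by positivity) (min_le_left _ _)

omit [CompactSpace K] in
lemma Psi_summable (p : Cp (X × K)) (q : ℕ → K) (z : Cp (X × K)) (x : X) :
    Summable fun n : ℕ => (1 / 2 : ℝ) ^ n * min 1 |z.1 (x, q n) - p.1 (x, q n)| := by
  apply Summable.of_nonneg_of_le _ _ summable_geometric_two
  · intro n; positivity
  · intro n; exact mul_le_of_le_one_right (by positivity) (min_le_left _ _)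

omit [CompactSpace K] in
lemma Psi_term_le (p : Cp (X × K)) (q : ℕ → K) (z : Cp (X × K)) (x : X) (n : ℕ) :
    (1 / 2 : ℝ) ^ n * min 1 |z.1 (x, q n) - p.1 (x, q n)| ≤ (Psi p q z).1 x :=
  (Psi_summable p q z x).le_tsum n (fun m _ => by positivity)

omit [CompactSpace K] in
lemma Psi_self (p : Cp (X × K)) (q : ℕ → K) : Psi p q p = ⟨fun _ => 0, continuous_const⟩ := by
  apply Subtype.ext
  ext x
  simp [Psi]

omit [CompactSpace K] in
lemma eq_of_Psi {p : Cp (X × K)} {q : ℕ → K} {z : Cp (X × K)} (h : Psi p q z = Psi p q p)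
    (x : X) (n : ℕ) : z.1 (x, q n) = p.1 (x, q n) := by
  have h1 := Psi_term_le p q z x n
  rw [h, Psi_self] at h1
  have h2 : 0 ≤ (1 / 2 : ℝ) ^ n * min 1 |z.1 (x, q n) - p.1 (x, q n)| := by positivity
  have h3 : (1 / 2 : ℝ) ^ n * min 1 |z.1 (x, q n) - p.1 (x, q n)| = 0 := le_antisymm h1 h2
  have h4 : min 1 |z.1 (x, q n) - p.1 (x, q n)| = 0 := by
    rcases mul_eq_zero.1 h3 with h | h
    · exact absurd h (by positivity)
    · exact h
  have h5 : |z.1 (x, q n) - p.1 (x, q n)| = 0 := by
    by_contra hne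
    have : 0 < |z.1 (x, q n) - p.1 (x, q n)| := lt_of_le_of_ne (abs_nonneg _) (Ne.symm hne)
    have : 0 < min 1 |z.1 (x, q n) - p.1 (x, q n)| := lt_min one_pos this
    linarith
  exact sub_eq_zero.1 (abs_eq_zero.1 h5)

omit [CompactSpace K] in
/-- one step of the closing-off argument -/
lemma exists_step (hgood : ∀ S : Set (Cp X), IsCompact S → CountablyTight S)
    {Z : Set (Cp (X × K))} (hZ : IsCompact Z) {C : Set (Cp (X × K))} (hCZ : C ⊆ Z)
    (hC : ∀ B : Set (Cp (X × K)), B ⊆ C → B.Countable → closure B ⊆ C)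
    {p : Cp (X × K)} (hp : p ∈ closure C) (Q : Set K) (hQ : Q.Countable) :
    ∃ z ∈ C, ∀ x : X, ∀ κ ∈ Q, z.1 (x, κ) = p.1 (x, κ) := by
  have hCne : C.Nonempty := by
    rw [← closure_nonempty_iff]; exact ⟨p, hp⟩
  rcases Q.eq_empty_or_nonempty with rfl | hne
  · obtain ⟨z, hz⟩ := hCne
    exact ⟨z, hz, fun x κ hκ => absurd hκ (by simp)⟩
  obtain ⟨q, hq⟩ := hQ.exists_eq_range hne
  have hpZ : p ∈ Z := (closure_minimal hCZ hZ.isClosed) hp
  have hcomp : IsCompact (Psi p q '' Z) := hZ.image (Psi_cont p q)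
  have htight := (ct_iff _).1 (hgood _ hcomp)
  have h1 : Psi p q p ∈ closure (Psi p q '' C) :=
    image_closure_subset_closure_image (Psi_cont p q) ⟨p, hp, rfl⟩
  obtain ⟨B, hBC, hBc, hB⟩ := htight (Psi p q '' C) (image_mono hCZ) _ ⟨p, hpZ, rfl⟩ h1
  have hsup : ∀ b ∈ B, ∃ z ∈ C, Psi p q z = b := fun b hb => hBC hb
  have : Nonempty (Cp (X × K)) := ⟨p⟩
  choose! g hgC hg using hsup
  have hB' : Psi p q '' (g '' B) = B := by
    rw [image_image]
    ext b
    constructor
    · rintro ⟨b', hb', rfl⟩
      change Psi p q (g b') ∈ B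
      rw [hg b' hb']; exact hb'
    · intro hb
      exact ⟨b, hb, hg b hb⟩
  have hgB : g '' B ⊆ C := by
    rintro _ ⟨b, hb, rfl⟩; exact hgC b hb
  have hclC := hC (g '' B) hgB (hBc.image _)
  have hcpt : IsCompact (closure (g '' B)) :=
    hZ.of_isClosed_subset isClosed_closure (hclC.trans hCZ)
  have h2 : closure B ⊆ Psi p q '' closure (g '' B) := by
    apply closure_minimal
    · rw [← hB']; exact image_mono (by rw [hB']; exact subset_closure)
    · exact (hcpt.image (Psi_cont p q)).isClosed
  obtain ⟨z, hz, hzp⟩ := h2 hB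
  refine ⟨z, hclC hz, fun x κ hκ => ?_⟩
  rw [hq] at hκ
  obtain ⟨n, rfl⟩ := hκ
  exact eq_of_Psi hzp x n

/-- The main closing-off argument: a subset of a compact Z which contains the closures of its
countable subsets is closed. -/
lemma omega_closed (hgood : ∀ S : Set (Cp X), IsCompact S → CountablyTight S)
    {Z : Set (Cp (X × K))} (hZ : IsCompact Z) {C : Set (Cp (X × K))} (hCZ : C ⊆ Z)
    (hC : ∀ B : Set (Cp (X × K)), B ⊆ C → B.Countable → closure B ⊆ C)
    {p : Cp (X × K)} (hp : p ∈ closure C) : p ∈ C := by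
  classical
  have hN := exists_N (K := K) hgood
  choose! N hNc hN using hN
  have hstep := exists_step hgood hZ hCZ hC hp
  have : Nonempty (Cp (X × K)) := ⟨p⟩
  choose! V hVC hV using hstep
  -- the recursion
  let st : ℕ → Set (Cp (X × K)) × Set K := fun n => Nat.rec ({p}, N {p})
    (fun _ s => (s.1 ∪ {V s.2}, s.2 ∪ N (s.1 ∪ {V s.2}))) n
  have hst0 : st 0 = ({p}, N {p}) := rfl
  have hsts : ∀ n, st (n + 1) = ((st n).1 ∪ {V (st n).2}, (st n).2 ∪ N ((st n).1 ∪ {V (st n).2})) :=
    fun n => rfl
  have hcount : ∀ n, (st n).1.Countable ∧ (st n).2.Countable := by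
    intro n
    induction n with
    | zero => rw [hst0]; exact ⟨countable_singleton _, hNc _ (countable_singleton _)⟩
    | succ n ih =>
      rw [hsts]
      have h1 : ((st n).1 ∪ {V (st n).2}).Countable := ih.1.union (countable_singleton _)
      exact ⟨h1, ih.2.union (hNc _ h1)⟩
  have hNsub : ∀ n, N (st n).1 ⊆ (st n).2 := by
    intro n
    cases n with
    | zero => rw [hst0]
    | succ n => rw [hsts]; exact subset_union_right
  have hmono : ∀ m n, m ≤ n → (st m).1 ⊆ (st n).1 ∧ (st m).2 ⊆ (st n).2 := by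
    intro m n hmn
    induction n, hmn using Nat.le_induction with
    | base => exact ⟨Subset.rfl, Subset.rfl⟩
    | succ n _ ih =>
      rw [hsts n]
      exact ⟨ih.1.trans subset_union_left, ih.2.trans subset_union_left⟩
  let w : ℕ → Cp (X × K) := fun n => V (st n).2
  have hwC : ∀ n, w n ∈ C := fun n => hVC _ (hcount n).2
  have hwp : ∀ n x, ∀ κ ∈ (st n).2, (w n).1 (x, κ) = p.1 (x, κ) := fun n => hV _ (hcount n).2
  have hwst : ∀ m n, m < n → w m ∈ (st n).1 := by
    intro m n hmn
    apply (hmono (m + 1) n hmn).1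
    rw [hsts]
    exact Or.inr rfl
  have hpst : ∀ n, p ∈ (st n).1 := fun n => (hmono 0 n (Nat.zero_le _)).1 (by rw [hst0]; rfl)
  -- the ultrafilter limit
  let 𝒱 : Ultrafilter ℕ := Filter.hyperfilter ℕ
  have hV1 : (𝒱 : Filter ℕ) ≤ atTop := Nat.hyperfilter_le_atTop
  obtain ⟨z, hzZ, hz⟩ := hZ.ultrafilter_le_nhds (𝒱.map w) (by
    rw [Ultrafilter.coe_map, le_principal_iff]
    exact Filter.mem_map.2 (Filter.univ_mem' fun n => hCZ (hwC n)))
  have hzt : Tendsto w 𝒱 (𝓝 z) := hz
  have hzC : z ∈ C := by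
    apply hC (range w) (by rintro _ ⟨n, rfl⟩; exact hwC n) (countable_range w)
    exact mem_closure_of_tendsto hzt (Filter.univ_mem' fun n => ⟨n, rfl⟩)
  have hzt' : ∀ y : X × K, Tendsto (fun n => (w n).1 y) 𝒱 (𝓝 (z.1 y)) := by
    intro y
    exact (((continuous_apply y).comp continuous_subtype_val).tendsto z).comp hzt
  suffices z = p by rwa [← this]
  apply Subtype.ext
  funext y
  obtain ⟨x, κ⟩ := y
  have hk : ∀ n, ∃ κ' ∈ closure (N (st n).1), ∀ z ∈ (st n).1, ∀ x : X,
      z.1 (x, κ) = z.1 (x, κ') := fun n => hN _ (hcount n).1 κ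
  choose k hk1 hk2 using hk
  obtain ⟨κ', -, hκ'⟩ := isCompact_univ.ultrafilter_le_nhds (𝒱.map k) (by simp)
  have hkt : Tendsto k 𝒱 (𝓝 κ') := hκ'
  have hconv : ∀ v : Cp (X × K), (∃ m, ∀ n, m ≤ n → v ∈ (st n).1) → v.1 (x, κ') = v.1 (x, κ) := by
    rintro v ⟨m, hm⟩
    have t1 : Tendsto (fun n => v.1 (x, k n)) 𝒱 (𝓝 (v.1 (x, κ'))) := by
      have : Continuous fun κ'' => v.1 (x, κ'') := by have := v.2; fun_prop
      exact (this.tendsto κ').comp hkt
    have t2 : Tendsto (fun n => v.1 (x, k n)) 𝒱 (𝓝 (v.1 (x, κ))) := by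
      apply tendsto_const_nhds.congr'
      apply hV1
      filter_upwards [Filter.eventually_ge_atTop m] with n hn
      exact hk2 n v (hm n hn) x
    exact tendsto_nhds_unique t1 t2
  have hw' : ∀ m, (w m).1 (x, κ') = (w m).1 (x, κ) := fun m =>
    hconv _ ⟨m + 1, fun n hn => hwst m n hn⟩
  have hp' : p.1 (x, κ') = p.1 (x, κ) := hconv _ ⟨0, fun n _ => hpst n⟩
  have hz' : z.1 (x, κ') = z.1 (x, κ) := by
    have := hzt' (x, κ')
    simp_rw [hw'] at this
    exact tendsto_nhds_unique this (hzt' (x, κ))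
  have hcl : z.1 (x, κ') = p.1 (x, κ') := by
    have hsubset : closure (⋃ n, (st n).2) ⊆ {κ'' | z.1 (x, κ'') = p.1 (x, κ'')} := by
      apply closure_minimal
      · intro κ'' hκ''
        obtain ⟨m, hm⟩ := mem_iUnion.1 hκ''
        have t1 : Tendsto (fun n => (w n).1 (x, κ'')) 𝒱 (𝓝 (p.1 (x, κ''))) := by
          apply tendsto_const_nhds.congr'
          apply hV1
          filter_upwards [Filter.eventually_ge_atTop m] with n hn
          exact (hwp n x κ'' ((hmono m n hn).2 hm)).symm
        exact tendsto_nhds_unique (hzt' (x, κ'')) t1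
      · have h1 : Continuous fun κ'' => z.1 (x, κ'') := by have := z.2; fun_prop
        have h2 : Continuous fun κ'' => p.1 (x, κ'') := by have := p.2; fun_prop
        exact isClosed_eq h1 h2
    apply hsubset
    refine isClosed_closure.mem_of_tendsto hkt (Filter.univ_mem' fun n => ?_)
    exact closure_mono ((hNsub n).trans (subset_iUnion (fun n => (st n).2) n)) (hk1 n)
  rw [← hz', hcl, hp']

end Main

end Pool.Agent.Helper75.CpProduct
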